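import Pool.Agent.Helper76.GT.St

/-!
# Project GT, module KEY (helper9)
-/

set_option autoImplicit false

namespace Pool.Agent.Helper9.GT

open Pool.Agent.Helper76.GT Filter
open scoped Pointwise

universe u

section Pre

variable {H : Type u} [Group H] [DecidableEq H]

/-- transformed functions -/
def tr {N : ℕ} (c : Matrix (Fin N) (Fin N) ℝ) (f : Fin N → H → ℝ) : Fin N → H → ℝ :=
  fun i x => ∑ j, c i j * f j x

theorem gram_tr (S : Finset H) {N : ℕ} (c : Matrix (Fin N) (Fin N) ℝ) (f : Fin N → H → ℝ)
    (R : ℕ) : gram S (tr c f) R = c * gram S f R * c.transpose := by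
  ext i j
  simp only [gram, tr, Matrix.mul_apply, Matrix.transpose_apply]
  calc ∑ x ∈ S ^ R, (∑ k, c i k * f k x) * ∑ l, c j l * f l x
      = ∑ x ∈ S ^ R, ∑ l, ∑ k, c i k * (f k x * f l x) * c j l := by
        refine Finset.sum_congr rfl fun x _ => ?_
        rw [Finset.sum_mul_sum, Finset.sum_comm]
        refine Finset.sum_congr rfl fun l _ => Finset.sum_congr rfl fun k _ => ?_
        ring
    _ = ∑ l, ∑ k, ∑ x ∈ S ^ R, c i k * (f k x * f l x) * c j l := by
        rw [Finset.sum_comm]
        refine Finset.sum_congr rfl fun l _ => ?_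
        rw [Finset.sum_comm]
    _ = ∑ l, (∑ k, c i k * ∑ x ∈ S ^ R, f k x * f l x) * c j l := by
        refine Finset.sum_congr rfl fun l _ => ?_
        rw [Finset.sum_mul]
        refine Finset.sum_congr rfl fun k _ => ?_
        rw [Finset.mul_sum, Finset.sum_mul]

theorem harm_tr (S : Finset H) {N : ℕ} (c : Matrix (Fin N) (Fin N) ℝ) (f : Fin N → H → ℝ)
    (hf : ∀ i, Harm S (f i)) (i : Fin N) : Harm S (tr c f i) := by
  intro x
  simp only [tr]
  have : ∀ s ∈ S, (∑ j, c i j * f j (x * s)) - ∑ j, c i j * f j x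
      = ∑ j, c i j * (f j (x * s) - f j x) := by
    intro s _
    rw [← Finset.sum_sub_distrib]
    exact Finset.sum_congr rfl fun j _ => by ring
  rw [Finset.sum_congr rfl this, Finset.sum_comm]
  refine Finset.sum_eq_zero fun j _ => ?_
  rw [← Finset.mul_sum, hf j x, mul_zero]

end Pre

theorem pKEY (H : Type u) [Group H] [DecidableEq H] (h1 : TRC H) (h2 : GRA H) (h3 : DET)
    (h4 : WHI) : KEY H := by
  intro S hS N f hN
  have hN0 : (0 : ℝ) < N := by exact_mod_cast hN
  -- the main comparison
  have main : ∀ R R' : ℕ, (gram S f R').PosDef → ∃ c : Matrix (Fin N) (Fin N) ℝ,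
      gram S (tr c f) R' = 1 ∧
      ∀ b : ℝ, (∑ i, ∑ x ∈ S ^ R, tr c f i x ^ 2) / N ≤ b →
        (gram S f R).det ≤ b ^ N * (gram S f R').det := by
    intro R R' hP
    obtain ⟨c, hc⟩ := h4 N _ hP
    refine ⟨c, by rw [gram_tr, hc], fun b hb => ?_⟩
    have hdP : 0 < (gram S f R').det := hP.det_pos
    have hd1 : c.det ^ 2 * (gram S f R').det = 1 := by
      have := congrArg Matrix.det hc
      rw [Matrix.det_mul, Matrix.det_mul, Matrix.det_transpose, Matrix.det_one] at this
      rw [← this]; ring
    have hd2 : (gram S (tr c f) R).det = c.det ^ 2 * (gram S f R).det := by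
      rw [gram_tr, Matrix.det_mul, Matrix.det_mul, Matrix.det_transpose]; ring
    have hd3 : (gram S f R).det = (gram S (tr c f) R).det * (gram S f R').det := by
      rw [hd2]
      calc (gram S f R).det = (c.det ^ 2 * (gram S f R').det) * (gram S f R).det := by
            rw [hd1, one_mul]
        _ = _ := by ring
    have hps : (gram S (tr c f) R).PosSemidef := (h2 S hS N (tr c f)).1 R
    have htr : (gram S (tr c f) R).trace = ∑ i, ∑ x ∈ S ^ R, tr c f i x ^ 2 := by
      simp only [Matrix.trace, Matrix.diag, gram]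
      exact Finset.sum_congr rfl fun i _ => Finset.sum_congr rfl fun x _ => by ring
    have htr0 : 0 ≤ (∑ i, ∑ x ∈ S ^ R, tr c f i x ^ 2) / N :=
      div_nonneg (Finset.sum_nonneg fun i _ => Finset.sum_nonneg fun x _ => sq_nonneg _) hN0.le
    have hdet := h3 N _ hN hps
    rw [htr] at hdet
    rw [hd3]
    exact mul_le_mul_of_nonneg_right (hdet.trans (pow_le_pow_left₀ htr0 hb N)) hdP.le
  refine ⟨?_, ?_⟩
  · intro R R' hR hP
    obtain ⟨c, hc1, hc2⟩ := main R R' hP
    have hsub : S ^ R ⊆ S ^ R' := Finset.pow_subset_pow_right hS.one hR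
    have htr : ∑ i, ∑ x ∈ S ^ R', tr c f i x ^ 2 = N := by
      have h := congrArg Matrix.trace hc1
      simp only [Matrix.trace_one, Fintype.card_fin] at h
      rw [← h]
      simp only [Matrix.trace, Matrix.diag, gram]
      exact Finset.sum_congr rfl fun i _ => Finset.sum_congr rfl fun x _ => by ring
    have := hc2 1 (by
      rw [div_le_one hN0, ← htr]
      exact Finset.sum_le_sum fun i _ =>
        Finset.sum_le_sum_of_subset_of_nonneg hsub fun x _ _ => sq_nonneg _)
    simpa using this
  · intro hf a L κ J ha hL hκ hJ hP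
    obtain ⟨c, hc1, hc2⟩ := main (L * a) (4 * (L * a)) hP
    apply hc2
    have ht := h1 S hS N (tr c f) (harm_tr S c f hf) a L κ J ha hL hκ hJ (by
      intro i j
      have := congrFun (congrFun hc1 i) j
      rw [Matrix.one_apply] at this
      exact this)
    rw [div_le_iff₀ hN0]
    refine ht.trans (le_of_eq ?_)
    field_simp

end Pool.Agent.Helper9.GT
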