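import Pool.Agent.Helper79.GT.St4

/-!
# Project GT (MP_c2d095_lc): SM1: the simulation is E2
-/

set_option autoImplicit false

namespace Pool.Agent.Helper9.GT

open Pool.Agent.Helper79.GT Pool.Agent.Helper79.GS Pool.Agent.Helper73.DC Finset
open scoped Classical

private theorem fin_sym : Finite (Sym (Fin 5)) := by
  refine Finite.of_injective (β := Option (Option (Fin 5)))
    (fun s => match s with
      | Sym.lm => none
      | Sym.rm => some none
      | Sym.ch a => some (some a)) ?_
  intro a b h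
  cases a <;> cases b <;> simp_all

private theorem key_bound (M : OTM (Fin 5)) : ∃ m : ℕ, ∀ y, keyM M y < m := by
  haveI := M.finQ
  haveI := M.finΓ
  haveI := fin_sym
  haveI : Finite (Ky M) := inferInstance
  obtain ⟨b, hb⟩ := (Set.finite_range (keyM M)).bddAbove
  exact ⟨b + 1, fun y => Nat.lt_succ_of_le (hb ⟨y, rfl⟩)⟩

private theorem e_tab (M : OTM (Fin 5)) (f : Ky M → ℕ) {F : VF (Fin 5)} (hF : E2 F) :
    E2 (fun w v => tab M f (F w v)) := by
  obtain ⟨m, hm⟩ := key_bound M
  have h := (tL6 F F m (tab M f) (fun _ _ => 0) hF hF).1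
  have e : (fun w v => tab M f (F w v)) = fun w v => if F w v < m then tab M f (F w v) else 0 := by
    funext w v
    by_cases hlt : F w v < m
    · rw [if_pos hlt]
    · rw [if_neg hlt]
      unfold tab
      rw [dif_neg]
      rintro ⟨y, hy⟩
      exact hlt (hy ▸ hm y)
  rw [e]
  exact h

/-- the functions of the letters which may be used -/
private def HL (LT : List (Fin 5) → ℕ → (ℕ → ℕ) → ℕ) : Prop :=
  ∀ P : VF (Fin 5), E2 P → E2 (fun w v => LT w (P w v) v)

private theorem hl_of (LT : List (Fin 5) → ℕ → (ℕ → ℕ) → ℕ) (s : ℕ)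
    (h : E2 (fun w v => LT w (v 0) (fun i => v (i + 1)))) :
    HL (fun w i v => LT w i (fun j => v (j + s))) := by
  intro P hP
  have h2 := e_subst h (σ := fun i => Nat.casesOn i P (fun j => fun _ v => v (j + s))) (by
    intro i
    cases i with
    | zero => exact hP
    | succ j => exact e_get (j + s))
  exact h2

private theorem e_see {LT : List (Fin 5) → ℕ → (ℕ → ℕ) → ℕ} (hL : HL LT) {P : VF (Fin 5)} (hP : E2 P) :
    E2 (fun w v => seeN (fun i => LT w i v) (P w v)) := by
  unfold seeN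
  have h1 : E2 (fun w v => LT w (P w v - 1) v) := hL _ (e_sub hP (e_con 1))
  have h2 := e_ite (e_eq hP (e_con 0)) (e_con 0) (e_ite (e_eq h1 (e_con 0)) (e_con 6) h1)
  convert h2

private theorem e_key (M : OTM (Fin 5)) {LT : List (Fin 5) → ℕ → (ℕ → ℕ) → ℕ} (hL : HL LT)
    {β Z : VF (Fin 5)} (hβ : E2 β) (hZ : E2 Z) :
    E2 (fun w v => keyN M (fun i => LT w i v) (β w v) (Z w v)) := by
  unfold keyN
  have hd : ∀ i : ℕ, E2 (fun w v => dg (β w v) (Z w v) i) := fun i => e_dg hβ hZ (e_con i)
  have hs := E2.fsum (range M.tapes)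
    (fun t w v => dg (nG M) (dg (β w v) (Z w v) (3 + 2 * t)) (dg (β w v) (Z w v) (2 + 2 * t)) * nG M ^ t)
    (fun t _ => e_mul (e_dg (e_con (nG M)) (hd _) (hd _)) (e_con (nG M ^ t)))
  exact e_add (hd 0) (e_mul (e_con (nQ M)) (e_add (e_see hL (hd 1)) (e_mul (e_con 7) hs)))

private theorem e_mvC {D X : VF (Fin 5)} (hD : E2 D) (hX : E2 X) : E2 (fun w v => mvC (D w v) (X w v)) := by
  unfold mvC
  have h := e_ite (e_eq hD (e_con 0)) (e_sub hX (e_con 1))
    (e_ite (e_eq hD (e_con 1)) hX (e_add hX (e_con 1)))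
  convert h

private theorem e_cif (p : Prop) {F G : VF (Fin 5)} (hF : E2 F) (hG : E2 G) :
    E2 (fun w v => if p then F w v else G w v) := by
  by_cases hp : p
  · have e : (fun w v => if p then F w v else G w v) = F := by
      funext w v
      rw [if_pos hp]
    rw [e]
    exact hF
  · have e : (fun w v => if p then F w v else G w v) = G := by
      funext w v
      rw [if_neg hp]
    rw [e]
    exact hG

private theorem e_st (M : OTM (Fin 5)) {LT : List (Fin 5) → ℕ → (ℕ → ℕ) → ℕ} (hL : HL LT)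
    {N l β Z : VF (Fin 5)} (hN : E2 N) (hl : E2 l) (hβ : E2 β) (hZ : E2 Z) :
    E2 (fun w v => stN M (N w v) (l w v) (fun i => LT w i v) (β w v) (Z w v)) := by
  have hk := e_key M hL hβ hZ
  have hd : ∀ i : ℕ, E2 (fun w v => dg (β w v) (Z w v) i) := fun i => e_dg hβ hZ (e_con i)
  have hf : ∀ i : ℕ, E2 (fun w v =>
      (if i = 0 then tab M (fQ M) (keyN M (fun i => LT w i v) (β w v) (Z w v))
      else if i = 1 then min (mvC (tab M (fM M) (keyN M (fun i => LT w i v) (β w v) (Z w v)))
        (dg (β w v) (Z w v) 1)) (l w v + 1)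
      else if i % 2 = 0 then mvC (tab M (fD M ((i - 2) / 2)) (keyN M (fun i => LT w i v) (β w v) (Z w v)))
        (dg (β w v) (Z w v) i)
      else sdc (N w v) (nG M) (dg (β w v) (Z w v) i) (dg (β w v) (Z w v) (i - 1))
        (tab M (fW M ((i - 3) / 2)) (keyN M (fun i => LT w i v) (β w v) (Z w v))))) := by
    intro i
    have h := e_cif (i = 0) (e_tab M (fQ M) hk) (e_cif (i = 1)
      (e_min (e_mvC (e_tab M (fM M) hk) (hd 1)) (e_add hl (e_con 1)))
      (e_cif (i % 2 = 0) (e_mvC (e_tab M (fD M ((i - 2) / 2)) hk) (hd i))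
        (tL5 (fun _ _ => nG M) (fun w v => dg (β w v) (Z w v) i) (fun w v => dg (β w v) (Z w v) (i - 1))
          (fun w v => tab M (fW M ((i - 3) / 2)) (keyN M (fun i => LT w i v) (β w v) (Z w v))) N
          (e_con _) (hd i) (hd (i - 1)) (e_tab M (fW M ((i - 3) / 2)) hk) hN).2.2.1))
    convert h
  have hc := E2.fsum (range (2 + 2 * M.tapes)) _ (fun i _ => e_mul (hf i) (e_powc hβ i))
  have h := e_ite (e_eq (e_tab M (fH M) hk) (e_con 1)) hZ hc
  unfold stN cfgN
  convert h

theorem hSM1 : StSM1 := by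
  intro M C k N l LT hN hl hLT
  have hβ : E2 (fun w v => beN M C k (N w v) (l w v)) := by
    unfold beN
    exact e_pw hN (e_con 2) (e_add (e_add (e_add (e_mul (e_con (nG M))
      (e_add (e_mul (e_con C) (e_powc hl k)) (e_con C))) hl) (e_con (nQ M))) (e_con 4))
  have hN2 : E2 (fun w v => N w (fun i => v (i + 2))) := E2.rename hN (fun i => i + 2)
  have hl2 : E2 (fun w v => l w (fun i => v (i + 2))) := E2.rename hl (fun i => i + 2)
  have hβ2 : E2 (fun w v => beN M C k (N w (fun i => v (i + 2))) (l w (fun i => v (i + 2)))) :=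
    E2.rename hβ (fun i => i + 2)
  have hG := e_min (e_st M (hl_of LT 2 hLT) hN2 hl2 hβ2 (e_get 1)) hN2
  have hit := e_rec (F := fun w v => min (cQ M M.q0) (N w v)) (H := N) (B := N)
    (G := fun w _ r v => min (stN M (N w v) (l w v) (fun i => LT w i v) (beN M C k (N w v) (l w v)) r) (N w v))
    (e_min (e_con (cQ M M.q0)) hN) hG hN hN (by
      intro w v y _
      cases y with
      | zero => exact Nat.min_le_right _ _
      | succ y => exact Nat.min_le_right _ _)
  have hX := e_dg hβ hit (e_con 0)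
  have hfin := (tL6 _ _ (nQ M) (fun x => if ∃ q, cQ M q = x ∧ M.acc q then 1 else 0) (fun _ _ => 0) hX hX).1
  unfold E2P simP
  have e : (fun (w : List (Fin 5)) (v : ℕ → ℕ) => if ∃ q, cQ M q = dg (beN M C k (N w v) (l w v))
      (itN M (N w v) (l w v) (fun i => LT w i v) (beN M C k (N w v) (l w v)) (N w v)) 0 ∧ M.acc q then 1 else 0)
      = fun w v => if dg (beN M C k (N w v) (l w v))
      (itN M (N w v) (l w v) (fun i => LT w i v) (beN M C k (N w v) (l w v)) (N w v)) 0 < nQ M then
        (if ∃ q, cQ M q = dg (beN M C k (N w v) (l w v))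
      (itN M (N w v) (l w v) (fun i => LT w i v) (beN M C k (N w v) (l w v)) (N w v)) 0 ∧ M.acc q then 1 else 0)
        else 0 := by
    funext w v
    by_cases hlt : dg (beN M C k (N w v) (l w v))
      (itN M (N w v) (l w v) (fun i => LT w i v) (beN M C k (N w v) (l w v)) (N w v)) 0 < nQ M
    · rw [if_pos hlt]
    · rw [if_neg hlt, if_neg]
      rintro ⟨q, hq, _⟩
      apply hlt
      rw [← hq]
      exact (@Finite.equivFin M.Q M.finQ q).isLt
  rw [e]
  exact hfin

end Pool.Agent.Helper9.GT
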